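import Mathlib
import Pool.Agent.W319.GABC.F

set_option autoImplicit false

namespace Pool.Agent.Results.MP_7bfa24_nt.SuperpolynomialHeights

/-- `x` is admissible: the entries sum to `0`, their greatest common divisor is `1`, and no subsum
over a nonempty proper set of indices vanishes. -/
def Admissible {n : ℕ} (x : Fin n → ℤ) : Prop :=
  ∑ i, x i = 0 ∧ Finset.univ.gcd x = 1 ∧
    ∀ I : Finset (Fin n), I.Nonempty → I ≠ Finset.univ → ∑ i ∈ I, x i ≠ 0

/-- the radical of an integer: the product of the distinct primes dividing it -/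
def radical (m : ℤ) : ℕ := ∏ p ∈ m.natAbs.primeFactors, p

/-- the admissible `n`-tuples for which the radical of the product of the entries is at most `Y`
and all entries are at most `Y ^ (c * log (log Y))` in absolute value -/
def Tuples (n : ℕ) (c : ℝ) (Y : ℕ) : Set (Fin n → ℤ) :=
  {x | Admissible x ∧ radical (∏ j, x j) ≤ Y ∧
    ∀ i, ((|x i| : ℤ) : ℝ) ≤ (Y : ℝ) ^ (c * Real.log (Real.log Y))}

/-- For every `n ≥ 3` and `ε > 0` there is `c > 0` such that for all large `Y` there are at most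
`Y ^ (1 - 1 / binom (n, ⌊n / 2⌋) + ε)` admissible `n`-tuples with `R (x_1 ⋯ x_n) ≤ Y` and
`max |x_i| ≤ Y ^ (c log log Y)`. -/
theorem result (n : ℕ) (hn : 3 ≤ n) (ε : ℝ) (hε : 0 < ε) :
    ∃ c : ℝ, 0 < c ∧ ∃ Y₀ : ℕ, ∀ Y : ℕ, Y₀ ≤ Y → (Tuples n c Y).Finite ∧
      ((Tuples n c Y).ncard : ℝ) ≤ (Y : ℝ) ^ (1 - 1 / (n.choose (n / 2) : ℝ) + ε) :=
  Pool.Agent.W319.GABC.main2 n hn ε hε

end Pool.Agent.Results.MP_7bfa24_nt.SuperpolynomialHeights
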